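import Pool.Agent.Helper50.HT.Stmts

/-!
# Heavy nuclei, part A: row FST (the arrangement of the electrons of an atom)
-/

set_option autoImplicit false

namespace Pool.Agent.Helper47.HT

open MeasureTheory Filter Pool.Agent.Helper95 Pool.Agent.Helper95.PW Pool.Agent.Helper95.LN
open Pool.Agent.Helper50.HT

theorem nr_nn (y : R3) : 0 ≤ nr y := Real.sqrt_nonneg _

theorem nr_ng (y : R3) : nr (-y) = nr y := by simp [nr]

theorem nr_sc (x y : R3) : nr (x - y) = nr (y - x) := by rw [← nr_ng, neg_sub]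

theorem abs_le_nr (y : R3) (i : Fin 3) : |y i| ≤ nr y := by
  rw [nr]
  refine Real.abs_le_sqrt ?_
  have h0 := sq_nonneg (y 0)
  have h1 := sq_nonneg (y 1)
  have h2 := sq_nonneg (y 2)
  fin_cases i
  · show y 0 ^ 2 ≤ _
    linarith
  · show y 1 ^ 2 ≤ _
    linarith
  · show y 2 ^ 2 ≤ _
    linarith

theorem nr_le (y : R3) (c : ℝ) (hc : 0 ≤ c) (h : ∀ i, |y i| ≤ c) : nr y ≤ 2 * c := by
  rw [nr]
  refine Real.sqrt_le_iff.2 ⟨by positivity, ?_⟩
  have h0 := (sq_le_sq₀ (abs_nonneg _) hc).2 (h 0)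
  have h1 := (sq_le_sq₀ (abs_nonneg _) hc).2 (h 1)
  have h2 := (sq_le_sq₀ (abs_nonneg _) hc).2 (h 2)
  rw [sq_abs] at h0 h1 h2
  nlinarith [sq_nonneg c]

theorem nr_sm (s : ℝ) (hs : 0 ≤ s) (v w : Fin 3 → ℤ) :
    nr (sc s v - sc s w) = s * nr (fun i => ((w i : ℝ) - (v i : ℝ))) := by
  rw [nr, nr]
  have h1 : (sc s v - sc s w) 0 ^ 2 + (sc s v - sc s w) 1 ^ 2 + (sc s v - sc s w) 2 ^ 2 =
      s ^ 2 * (((w 0 : ℝ) - (v 0 : ℝ)) ^ 2 + ((w 1 : ℝ) - (v 1 : ℝ)) ^ 2 +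
        ((w 2 : ℝ) - (v 2 : ℝ)) ^ 2) := by
    simp only [sc, Pi.sub_apply]
    ring
  rw [h1, Real.sqrt_mul (sq_nonneg s), Real.sqrt_sq hs]

/-- pair term -/
noncomputable def ff (v w : R3) : ℝ := if v = w then 0 else 1 / nr (v - w)

theorem ff_nn (v w : R3) : 0 ≤ ff v w := by
  rw [ff]
  split_ifs
  · exact le_refl _
  · exact one_div_nonneg.2 (nr_nn _)

theorem ff_le (v w : R3) : ff v w ≤ 1 / nr (v - w) := by
  rw [ff]
  split_ifs
  · exact one_div_nonneg.2 (nr_nn _)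
  · exact le_refl _

theorem ff_sy (v w : R3) : ff v w = ff w v := by
  rw [ff, ff]
  by_cases h : v = w
  · rw [if_pos h, if_pos h.symm]
  · rw [if_neg h, if_neg (fun h' => h h'.symm), nr_sc]

theorem ff_self (v : R3) : ff v v = 0 := by
  rw [ff, if_pos rfl]

theorem sc_inj (s : ℝ) (hs : 0 < s) : Function.Injective (sc s) := by
  intro v w h
  funext i
  have h1 := congrFun h i
  have h2 : (v i : ℝ) = (w i : ℝ) := mul_left_cancel₀ hs.ne' h1
  exact_mod_cast h2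

theorem lat_sc (hL : ST_LAT) (s : ℝ) (hs : 0 < s) (K : ℕ) (A : Finset (Fin 3 → ℤ))
    (v : Fin 3 → ℤ) (h : ∀ w ∈ A, ∀ i, |w i - v i| ≤ (K : ℤ)) :
    ∑ w ∈ A, ff (sc s v) (sc s w) ≤ 80 * (K : ℝ) ^ 2 / s := by
  rw [le_div_iff₀ hs]
  refine le_trans ?_ (hL K A v h)
  rw [Finset.sum_mul]
  refine Finset.sum_le_sum fun w _ => ?_
  by_cases hw : w = v
  · rw [if_pos hw, hw, ff_self]
    simp
  · rw [if_neg hw]
    have h1 := mul_le_mul_of_nonneg_right (ff_le (sc s v) (sc s w)) hs.le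
    refine h1.trans (le_of_eq ?_)
    rw [nr_sm s hs.le]
    field_simp

theorem InA_bd {K : ℕ} {v : Fin 3 → ℤ} (h : InA K v) (i : Fin 3) : 1 ≤ |v i| ∧ |v i| ≤ K := by
  rcases h with h | h
  · have := h i
    rw [abs_of_nonneg (by omega)]
    exact this
  · have := h i
    rw [abs_of_nonpos (by omega)]
    omega

theorem InB_bd {K : ℕ} {v : Fin 3 → ℤ} (h : InB K v) (i : Fin 3) : 1 ≤ |v i| ∧ |v i| ≤ K := by
  have h3 : (1 ≤ v i ∧ v i ≤ K) ∨ (-(K : ℤ) ≤ v i ∧ v i ≤ -1) := by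
    rcases h with h | h
    · fin_cases i
      · left; exact ⟨h.1, h.2.1⟩
      · left; exact ⟨h.2.2.1, h.2.2.2.1⟩
      · right; exact ⟨h.2.2.2.2.1, h.2.2.2.2.2⟩
    · fin_cases i
      · right; exact ⟨h.1, h.2.1⟩
      · right; exact ⟨h.2.2.1, h.2.2.2.1⟩
      · left; exact ⟨h.2.2.2.2.1, h.2.2.2.2.2⟩
  rcases h3 with h3 | h3
  · rw [abs_of_nonneg (by omega)]
    exact h3
  · rw [abs_of_nonpos (by omega)]
    omega

/-- opposite signs in one coordinate -/
theorem opp {K L : ℕ} {v w : Fin 3 → ℤ} (hv : InA K v) (hw : InB L w) :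
    ∃ i, (1 ≤ v i ∧ w i ≤ -1) ∨ (v i ≤ -1 ∧ 1 ≤ w i) := by
  rcases hv with hv | hv <;> rcases hw with hw | hw
  · exact ⟨2, Or.inl ⟨(hv 2).1, hw.2.2.2.2.2⟩⟩
  · exact ⟨0, Or.inl ⟨(hv 0).1, hw.2.1⟩⟩
  · exact ⟨0, Or.inr ⟨(hv 0).2, hw.1⟩⟩
  · exact ⟨2, Or.inr ⟨(hv 2).2, hw.2.2.2.2.1⟩⟩

theorem sep_AB {K L : ℕ} {v w : Fin 3 → ℤ} (hv : InA K v) (hw : InB L w) (s t : ℝ) (hs : 0 < s)
    (ht : 0 < t) : s + t ≤ nr (sc s v - sc t w) := by
  obtain ⟨i, hi⟩ := opp hv hw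
  refine le_trans ?_ (abs_le_nr _ i)
  have h0 : (sc s v - sc t w) i = s * (v i : ℝ) - t * (w i : ℝ) := rfl
  rw [h0]
  rcases hi with hi | hi
  · have h1 : (1 : ℝ) ≤ v i := by exact_mod_cast hi.1
    have h2 : (w i : ℝ) ≤ -1 := by exact_mod_cast hi.2
    refine le_trans ?_ (le_abs_self _)
    nlinarith
  · have h1 : (v i : ℝ) ≤ -1 := by exact_mod_cast hi.1
    have h2 : (1 : ℝ) ≤ w i := by exact_mod_cast hi.2
    refine le_trans ?_ (neg_le_abs _)
    nlinarith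

theorem nr_sc_ge (s : ℝ) (hs : 0 < s) (v : Fin 3 → ℤ) (i : Fin 3) (h : 1 ≤ |v i|) :
    s ≤ nr (sc s v) := by
  refine le_trans ?_ (abs_le_nr _ i)
  have h0 : (sc s v) i = s * (v i : ℝ) := rfl
  rw [h0, abs_mul, abs_of_pos hs]
  have h1 : (1 : ℝ) ≤ |(v i : ℝ)| := by exact_mod_cast h
  nlinarith

theorem nr_sc_le (s : ℝ) (hs : 0 < s) (K : ℕ) (v : Fin 3 → ℤ) (h : ∀ i, |v i| ≤ K) :
    nr (sc s v) ≤ 2 * (s * K) := by
  refine nr_le _ _ (by positivity) fun i => ?_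
  have h0 : (sc s v) i = s * (v i : ℝ) := rfl
  rw [h0, abs_mul, abs_of_pos hs]
  have h1 : |(v i : ℝ)| ≤ K := by exact_mod_cast h i
  exact mul_le_mul_of_nonneg_left h1 hs.le

theorem sep_same (s : ℝ) (hs : 0 < s) (v w : Fin 3 → ℤ) (h : v ≠ w) :
    s ≤ nr (sc s v - sc s w) := by
  obtain ⟨i, hi⟩ := Function.ne_iff.1 h
  refine le_trans ?_ (abs_le_nr _ i)
  have h0 : (sc s v - sc s w) i = s * ((v i - w i : ℤ) : ℝ) := by
    simp only [sc, Pi.sub_apply]
    push_cast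
    ring
  rw [h0, abs_mul, abs_of_pos hs]
  have h1 : 1 ≤ |v i - w i| := Int.one_le_abs (sub_ne_zero.2 hi)
  have h2 : (1 : ℝ) ≤ |((v i - w i : ℤ) : ℝ)| := by exact_mod_cast h1
  nlinarith

theorem le_self_pow5 (K : ℕ) (hK : 1 ≤ K) : (K : ℝ) ^ 2 ≤ (K : ℝ) ^ 5 := by
  have h1 : (1 : ℝ) ≤ K := by exact_mod_cast hK
  exact pow_le_pow_right₀ h1 (by norm_num)

/-- row FST -/
theorem FST (hE : ST_EXA) (hL : ST_LAT) (hC : ST_CRS) : ST_FST := by
  classical
  refine ⟨1000, by norm_num, ?_⟩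
  intro K L m e s t hs hst hK hL1 hm1 hm2 he
  have ht : 0 < t := hs.trans_le hst
  have hK1 : (1 : ℝ) ≤ K := by exact_mod_cast hK
  have hLr : (1 : ℝ) ≤ L := by exact_mod_cast hL1
  have hK0 : (0 : ℝ) < K := by linarith
  have hL0 : (0 : ℝ) < L := by linarith
  obtain ⟨⟨A, hAc, hAi, hAn⟩, -⟩ := hE K (K ^ 3) le_rfl
  obtain ⟨-, B, hBc, hBi, hBn⟩ := hE L (m - K ^ 3) (by
    exact Nat.sub_le_iff_le_add'.2 hm2)
  obtain ⟨O, hOc, hO⟩ : ∃ O : Finset R3, O.card = e ∧ ∀ v ∈ O, v = 0 := by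
    interval_cases e
    · exact ⟨∅, rfl, by simp⟩
    · exact ⟨{0}, rfl, by simp⟩
  have hmA : ∀ x ∈ A.image (sc s), ∃ v ∈ A, sc s v = x := fun x hx => Finset.mem_image.1 hx
  have hmB : ∀ x ∈ B.image (sc t), ∃ v ∈ B, sc t v = x := fun x hx => Finset.mem_image.1 hx
  have n0 : nr (0 : R3) = 0 := by simp [nr]
  have gA : ∀ x ∈ A.image (sc s), s ≤ nr x := by
    intro x hx
    obtain ⟨v, hv, rfl⟩ := hmA x hx
    exact nr_sc_ge s hs v 0 (InA_bd (hAi v hv) 0).1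
  have gB : ∀ x ∈ B.image (sc t), t ≤ nr x := by
    intro x hx
    obtain ⟨v, hv, rfl⟩ := hmB x hx
    exact nr_sc_ge t ht v 0 (InB_bd (hBi v hv) 0).1
  have gAB : ∀ x ∈ A.image (sc s), ∀ y ∈ B.image (sc t), s + t ≤ nr (x - y) := by
    intro x hx y hy
    obtain ⟨v, hv, rfl⟩ := hmA x hx
    obtain ⟨w, hw, rfl⟩ := hmB y hy
    exact sep_AB (hAi v hv) (hBi w hw) s t hs ht
  have dAB : Disjoint (A.image (sc s)) (B.image (sc t)) := by
    rw [Finset.disjoint_left]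
    intro x hx hx'
    have h1 := gAB x hx x hx'
    rw [sub_self, n0] at h1
    linarith
  have d0 : Disjoint (A.image (sc s) ∪ B.image (sc t)) O := by
    rw [Finset.disjoint_left]
    intro x hx hx'
    rw [hO x hx'] at hx
    rcases Finset.mem_union.1 hx with hx | hx
    · have h1 := gA 0 hx
      rw [n0] at h1
      linarith
    · have h1 := gB 0 hx
      rw [n0] at h1
      linarith
  have cA : (A.image (sc s)).card = 2 * K ^ 3 := by
    rw [Finset.card_image_of_injective _ (sc_inj s hs), hAc]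
  have cB : (B.image (sc t)).card = 2 * (m - K ^ 3) := by
    rw [Finset.card_image_of_injective _ (sc_inj t ht), hBc]
  have iA : ∀ g : R3 → ℝ, ∑ x ∈ A.image (sc s), g x = ∑ v ∈ A, g (sc s v) := fun g =>
    Finset.sum_image (fun x _ y _ h => sc_inj s hs h)
  have iB : ∀ g : R3 → ℝ, ∑ x ∈ B.image (sc t), g x = ∑ v ∈ B, g (sc t v) := fun g =>
    Finset.sum_image (fun x _ y _ h => sc_inj t ht h)
  generalize hA' : A.image (sc s) = A' at *
  generalize hB' : B.image (sc t) = B' at *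
  have hS : ∀ g : R3 → ℝ, ∑ v ∈ (A' ∪ B') ∪ O, g v =
      ∑ v ∈ A', g v + ∑ v ∈ B', g v + ∑ v ∈ O, g v := by
    intro g
    rw [Finset.sum_union d0, Finset.sum_union dAB]
  have hmem : ∀ x ∈ (A' ∪ B') ∪ O, x ∈ A' ∨ x ∈ B' ∨ x ∈ O := by
    intro x hx
    rcases Finset.mem_union.1 hx with hx | hx
    · rcases Finset.mem_union.1 hx with hx | hx
      · exact Or.inl hx
      · exact Or.inr (Or.inl hx)
    · exact Or.inr (Or.inr hx)
  have hO0 : ∀ g : R3 → ℝ, 0 ≤ g 0 → ∑ v ∈ O, g v ≤ g 0 := by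
    intro g hg
    have h1 : O ⊆ {0} := fun x hx => Finset.mem_singleton.2 (hO x hx)
    have h2 := Finset.sum_le_sum_of_subset_of_nonneg (f := g) h1 (by
      intro i hi _
      rw [Finset.mem_singleton.1 hi]
      exact hg)
    rw [Finset.sum_singleton] at h2
    exact h2
  obtain ⟨r, rA, rB, rO⟩ : ∃ r : R3 → ℝ, (∀ x ∈ A', r x = s / 6) ∧ (∀ x ∈ B', r x = t / 6) ∧
      (∀ x ∈ O, r x = s / 6) := by
    refine ⟨fun x => if x ∈ B' then t / 6 else s / 6, ?_, ?_, ?_⟩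
    · intro x hx
      exact if_neg (Finset.disjoint_left.1 dAB hx)
    · intro x hx
      exact if_pos hx
    · intro x hx
      refine if_neg fun h => ?_
      exact Finset.disjoint_left.1 d0 (Finset.mem_union_right _ h) hx
  have cA' : (A'.card : ℝ) = 2 * (K : ℝ) ^ 3 := by
    rw [cA]
    push_cast
    ring
  have hmR : ((m - K ^ 3 : ℕ) : ℝ) = (m : ℝ) - (K : ℝ) ^ 3 := by
    rw [Nat.cast_sub hm1]
    push_cast
    ring
  have hm2' : (m : ℝ) ≤ (K : ℝ) ^ 3 + (L : ℝ) ^ 3 := by exact_mod_cast hm2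
  have cB' : (B'.card : ℝ) = 2 * ((m : ℝ) - (K : ℝ) ^ 3) := by
    rw [cB]
    push_cast
    rw [← hmR]
  have cB1 : (B'.card : ℝ) ≤ 2 * (L : ℝ) ^ 3 := by
    rw [cB']
    linarith
  have cB2 : (B'.card : ℝ) ≤ 2 * (m : ℝ) := by
    rw [cB']
    have : (0 : ℝ) ≤ (K : ℝ) ^ 3 := by positivity
    linarith
  -- pair sums
  have hAA : ∀ x ∈ A', ∑ y ∈ A', ff x y ≤ 320 * (K : ℝ) ^ 2 / s := by
    intro x hx
    rw [← hA'] at hx
    obtain ⟨v, hv, rfl⟩ := Finset.mem_image.1 hx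
    rw [iA]
    refine (lat_sc hL s hs (2 * K) A v fun w hw i => ?_).trans (le_of_eq ?_)
    · have h1 := (InA_bd (hAi v hv) i).2
      have h2 := (InA_bd (hAi w hw) i).2
      have h3 := abs_sub (w i) (v i)
      push_cast
      linarith
    · push_cast
      ring
  have hBB : ∀ x ∈ B', ∑ y ∈ B', ff x y ≤ 320 * (L : ℝ) ^ 2 / t := by
    intro x hx
    rw [← hB'] at hx
    obtain ⟨v, hv, rfl⟩ := Finset.mem_image.1 hx
    rw [iB]
    refine (lat_sc hL t ht (2 * L) B v fun w hw i => ?_).trans (le_of_eq ?_)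
    · have h1 := (InB_bd (hBi v hv) i).2
      have h2 := (InB_bd (hBi w hw) i).2
      have h3 := abs_sub (w i) (v i)
      push_cast
      linarith
    · push_cast
      ring
  have hAB : ∀ x ∈ A', ∑ y ∈ B', ff x y ≤ 4 * (L : ℝ) ^ 2 * Real.sqrt L / t := by
    intro x hx
    rw [← hA'] at hx
    obtain ⟨v, hv, rfl⟩ := Finset.mem_image.1 hx
    rw [iB]
    refine (Finset.sum_le_sum fun w _ => ff_le _ _).trans ?_
    exact hC K L s t v B hs ht (hAi v hv) hBi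
  have sc0 : ∀ s : ℝ, sc s 0 = 0 := by
    intro s
    funext i
    simp [sc]
  have h0A : ∑ y ∈ A', ff 0 y ≤ 80 * (K : ℝ) ^ 2 / s := by
    rw [iA, ← sc0 s]
    refine lat_sc hL s hs K A 0 fun w hw i => ?_
    rw [Pi.zero_apply, sub_zero]
    exact (InA_bd (hAi w hw) i).2
  have h0B : ∑ y ∈ B', ff 0 y ≤ 80 * (L : ℝ) ^ 2 / t := by
    rw [iB, ← sc0 t]
    refine lat_sc hL t ht L B 0 fun w hw i => ?_
    rw [Pi.zero_apply, sub_zero]
    exact (InB_bd (hBi w hw) i).2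
  have fn : ∀ (T : Finset R3) (x : R3), 0 ≤ ∑ y ∈ T, ff x y := fun T x =>
    Finset.sum_nonneg fun y _ => ff_nn x y
  have sw : ∀ T U : Finset R3, ∑ x ∈ T, ∑ y ∈ U, ff x y = ∑ y ∈ U, ∑ x ∈ T, ff y x := by
    intro T U
    rw [Finset.sum_comm]
    exact Finset.sum_congr rfl fun y _ => Finset.sum_congr rfl fun x _ => ff_sy x y
  refine ⟨(A' ∪ B') ∪ O, r, ?_, ?_, ?_, ?_, ?_, ?_, ?_, ?_, ?_⟩
  · -- card
    rw [Finset.card_union_of_disjoint d0, Finset.card_union_of_disjoint dAB, cA, cB, hOc]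
    have h1 : m - K ^ 3 + K ^ 3 = m := Nat.sub_add_cancel hm1
    generalize m - K ^ 3 = p at *
    generalize K ^ 3 = q at *
    omega
  · -- symmetric
    intro x hx
    rcases hmem x hx with hx | hx | hx
    · refine Finset.mem_union_left _ (Finset.mem_union_left _ ?_)
      rw [← hA'] at hx ⊢
      obtain ⟨v, hv, rfl⟩ := Finset.mem_image.1 hx
      refine Finset.mem_image.2 ⟨-v, hAn v hv, ?_⟩
      funext i
      simp [sc]
    · refine Finset.mem_union_left _ (Finset.mem_union_right _ ?_)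
      rw [← hB'] at hx ⊢
      obtain ⟨v, hv, rfl⟩ := Finset.mem_image.1 hx
      refine Finset.mem_image.2 ⟨-v, hBn v hv, ?_⟩
      funext i
      simp [sc]
    · refine Finset.mem_union_right _ ?_
      have h1 := hO x hx
      rw [h1] at hx ⊢
      rw [neg_zero]
      exact hx
  · -- radii
    intro x hx
    rcases hmem x hx with hx | hx | hx
    · rw [rA x hx]
      constructor <;> linarith
    · rw [rB x hx]
      constructor <;> linarith
    · rw [rO x hx]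
      constructor <;> linarith
  · -- size
    intro x hx
    have h1 : 0 ≤ 2 * (s * (K : ℝ)) := by positivity
    have h2 : 0 ≤ 2 * (t * (L : ℝ)) := by positivity
    rcases hmem x hx with hx | hx | hx
    · rw [← hA'] at hx
      obtain ⟨v, hv, rfl⟩ := Finset.mem_image.1 hx
      have h3 := nr_sc_le s hs K v fun i => (InA_bd (hAi v hv) i).2
      linarith
    · rw [← hB'] at hx
      obtain ⟨v, hv, rfl⟩ := Finset.mem_image.1 hx
      have h3 := nr_sc_le t ht L v fun i => (InB_bd (hBi v hv) i).2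
      linarith
    · rw [hO x hx, n0]
      linarith
  · -- nucleus
    intro x hx
    rcases hmem x hx with hx | hx | hx
    · right
      rw [rA x hx]
      linarith [gA x hx]
    · right
      rw [rB x hx]
      linarith [gB x hx]
    · left
      exact hO x hx
  · -- separation
    intro x hx y hy hxy
    have sAO : ∀ x ∈ A', ∀ y ∈ O, 3 * (r x + r y) ≤ nr (x - y) := by
      intro x hx y hy
      rw [rA x hx, rO y hy, hO y hy, sub_zero]
      linarith [gA x hx]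
    have sBO : ∀ x ∈ B', ∀ y ∈ O, 3 * (r x + r y) ≤ nr (x - y) := by
      intro x hx y hy
      rw [rB x hx, rO y hy, hO y hy, sub_zero]
      linarith [gB x hx]
    have sAB : ∀ x ∈ A', ∀ y ∈ B', 3 * (r x + r y) ≤ nr (x - y) := by
      intro x hx y hy
      rw [rA x hx, rB y hy]
      linarith [gAB x hx y hy]
    rcases hmem x hx with hx | hx | hx
    · rcases hmem y hy with hy | hy | hy
      · rw [rA x hx, rA y hy]
        rw [← hA'] at hx hy
        obtain ⟨v, hv, rfl⟩ := Finset.mem_image.1 hx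
        obtain ⟨w, hw, rfl⟩ := Finset.mem_image.1 hy
        have h1 := sep_same s hs v w (fun h => hxy (by rw [h]))
        linarith
      · exact sAB x hx y hy
      · exact sAO x hx y hy
    · rcases hmem y hy with hy | hy | hy
      · have h1 := sAB y hy x hx
        rw [nr_sc]
        linarith
      · rw [rB x hx, rB y hy]
        rw [← hB'] at hx hy
        obtain ⟨v, hv, rfl⟩ := Finset.mem_image.1 hx
        obtain ⟨w, hw, rfl⟩ := Finset.mem_image.1 hy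
        have h1 := sep_same t ht v w (fun h => hxy (by rw [h]))
        linarith
      · exact sBO x hx y hy
    · rcases hmem y hy with hy | hy | hy
      · have h1 := sAO y hy x hx
        rw [nr_sc]
        linarith
      · have h1 := sBO y hy x hx
        rw [nr_sc]
        linarith
      · exact absurd ((hO x hx).trans (hO y hy).symm) hxy
  · -- kinetic sum
    rw [hS]
    have h1 : ∑ x ∈ A', 1 / r x ^ 2 = 2 * (K : ℝ) ^ 3 * (36 / s ^ 2) := by
      rw [Finset.sum_congr rfl (fun x hx => by rw [rA x hx]), Finset.sum_const, nsmul_eq_mul, cA']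
      field_simp
      ring
    have h2 : ∑ x ∈ B', 1 / r x ^ 2 ≤ 2 * (m : ℝ) * (36 / t ^ 2) := by
      rw [Finset.sum_congr rfl (fun x hx => by rw [rB x hx]), Finset.sum_const, nsmul_eq_mul]
      have h3 : 1 / (t / 6) ^ 2 = 36 / t ^ 2 := by
        field_simp
        ring
      rw [h3]
      exact mul_le_mul_of_nonneg_right cB2 (by positivity)
    have h3 : ∑ x ∈ O, 1 / r x ^ 2 ≤ (K : ℝ) ^ 3 * (36 / s ^ 2) := by
      rw [Finset.sum_congr rfl (fun x hx => by rw [rO x hx]), Finset.sum_const, nsmul_eq_mul, hOc]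
      have h3 : 1 / (s / 6) ^ 2 = 36 / s ^ 2 := by
        field_simp
        ring
      rw [h3]
      refine mul_le_mul_of_nonneg_right ?_ (by positivity)
      have h4 : (e : ℝ) ≤ 1 := by exact_mod_cast he
      exact h4.trans (one_le_pow₀ hK1)
    have h4 : 0 ≤ (K : ℝ) ^ 3 / s ^ 2 := by positivity
    have h5 : 0 ≤ (m : ℝ) / t ^ 2 := by positivity
    have h6 : (K : ℝ) ^ 3 * (36 / s ^ 2) = 36 * ((K : ℝ) ^ 3 / s ^ 2) := by ring
    have h7 : 2 * (m : ℝ) * (36 / t ^ 2) = 72 * ((m : ℝ) / t ^ 2) := by ring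
    have h8 : 2 * (K : ℝ) ^ 3 * (36 / s ^ 2) = 72 * ((K : ℝ) ^ 3 / s ^ 2) := by ring
    rw [h8] at h1
    rw [h7] at h2
    rw [h6] at h3
    linarith
  · -- attraction
    rw [hS]
    have h1 : (K : ℝ) ^ 2 / s ≤ ∑ x ∈ A', 1 / nr x := by
      have h2 : ∀ x ∈ A', 1 / (2 * (s * (K : ℝ))) ≤ 1 / nr x := by
        intro x hx
        refine one_div_le_one_div_of_le (hs.trans_le (gA x hx)) ?_
        rw [← hA'] at hx
        obtain ⟨v, hv, rfl⟩ := Finset.mem_image.1 hx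
        exact nr_sc_le s hs K v fun i => (InA_bd (hAi v hv) i).2
      have h3 := Finset.card_nsmul_le_sum A' (fun x => 1 / nr x) _ h2
      rw [nsmul_eq_mul, cA'] at h3
      refine le_trans (le_of_eq ?_) h3
      field_simp
    have h2 : 0 ≤ ∑ x ∈ B', 1 / nr x := Finset.sum_nonneg fun x _ => one_div_nonneg.2 (nr_nn x)
    have h3 : 0 ≤ ∑ x ∈ O, 1 / nr x := Finset.sum_nonneg fun x _ => one_div_nonneg.2 (nr_nn x)
    linarith
  · -- repulsion
    show ∑ v ∈ (A' ∪ B') ∪ O, ∑ w ∈ (A' ∪ B') ∪ O, ff v w ≤ _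
    have e1 : ∑ x ∈ A', ∑ y ∈ A', ff x y ≤ 640 * ((K : ℝ) ^ 5 / s) := by
      have h1 := Finset.sum_le_card_nsmul A' _ _ hAA
      rw [nsmul_eq_mul, cA'] at h1
      refine h1.trans (le_of_eq ?_)
      ring
    have e2 : ∑ x ∈ B', ∑ y ∈ B', ff x y ≤ 640 * ((L : ℝ) ^ 5 / t) := by
      have h1 := Finset.sum_le_card_nsmul B' _ _ hBB
      rw [nsmul_eq_mul] at h1
      refine h1.trans ?_
      refine (mul_le_mul_of_nonneg_right cB1 (by positivity)).trans (le_of_eq ?_)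
      ring
    have e3 : ∑ x ∈ A', ∑ y ∈ B', ff x y ≤
        8 * ((K : ℝ) ^ 3 * ((L : ℝ) ^ 2 * Real.sqrt L) / t) := by
      have h1 := Finset.sum_le_card_nsmul A' _ _ hAB
      rw [nsmul_eq_mul, cA'] at h1
      refine h1.trans (le_of_eq ?_)
      ring
    have e4 : ∑ x ∈ O, ∑ y ∈ A', ff x y ≤ 80 * ((K : ℝ) ^ 5 / s) := by
      refine (hO0 _ (fn A' 0)).trans (h0A.trans ?_)
      rw [mul_div_assoc]
      refine mul_le_mul_of_nonneg_left ?_ (by norm_num)
      exact div_le_div_of_nonneg_right (le_self_pow5 K hK) hs.le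
    have e5 : ∑ x ∈ O, ∑ y ∈ B', ff x y ≤ 80 * ((L : ℝ) ^ 5 / t) := by
      refine (hO0 _ (fn B' 0)).trans (h0B.trans ?_)
      rw [mul_div_assoc]
      refine mul_le_mul_of_nonneg_left ?_ (by norm_num)
      exact div_le_div_of_nonneg_right (le_self_pow5 L hL1) ht.le
    have e6 : ∑ x ∈ O, ∑ y ∈ O, ff x y ≤ 0 := by
      refine (hO0 _ (fn O 0)).trans ?_
      refine (hO0 (fun y => ff 0 y) (ff_nn 0 0)).trans ?_
      rw [ff_self]
    have e7 := sw A' O
    have e8 := sw B' O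
    have e9 := sw B' A'
    have h1 : 0 ≤ (K : ℝ) ^ 5 / s := by positivity
    have h2 : 0 ≤ (L : ℝ) ^ 5 / t := by positivity
    have h3 : 0 ≤ (K : ℝ) ^ 3 * ((L : ℝ) ^ 2 * Real.sqrt L) / t := by positivity
    simp only [hS, Finset.sum_add_distrib]
    linarith

end Pool.Agent.Helper47.HT
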